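import Pool.Agent.Helper47.EP.Goals

/-!
# Project EP, packet CHR: characters
-/

set_option autoImplicit false

namespace Pool.Agent.Helper1.EP.CHR

open MonoidAlgebra IsLocalRing Pool.Agent.Helper17.PF Pool.Agent.Helper47.EP

variable {p : ℕ} [Fact p.Prime] {T : Dat p}

theorem addChar_ext {R : Type} [CommRing R] {n : ℕ} [NeZero n] {ψ φ : AddChar (ZMod n) R}
    (h : ψ 1 = φ 1) : ψ = φ := by
  apply AddChar.ext
  intro z
  have hz : z = z.val • (1 : ZMod n) := by
    rw [nsmul_eq_mul, mul_one, ZMod.natCast_zmod_val]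
  rw [hz, AddChar.map_nsmul_eq_pow, AddChar.map_nsmul_eq_pow, h]

theorem chr_ext {R : Type} [CommRing R] {C C' : Chr T R} (h : C.ψ 1 = C'.ψ 1) : C = C' := by
  have h1 : C.ψ = C'.ψ := addChar_ext h
  have h2 : C.il = C'.il := by
    calc C.il = C.il * (C'.il * (T.l : R)) := by rw [C'.il_mul, mul_one]
      _ = (C.il * (T.l : R)) * C'.il := by ring
      _ = C'.il := by rw [C.il_mul, one_mul]
  cases C
  cases C'
  simp only at h1 h2
  subst h1
  subst h2
  rfl

theorem part1 (F : Type) [Field F] [IsAlgClosed F] [CharP F p] : Nonempty (Chr T F) := by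
  have hl : (T.l : F) ≠ 0 := by
    intro h
    have h1 := (CharP.cast_eq_zero_iff F p T.l).1 h
    have h2 := (Nat.prime_dvd_prime_iff_eq (Fact.out : p.Prime) T.prime).1 h1
    exact T.ne h2.symm
  haveI : NeZero (T.l : F) := ⟨hl⟩
  obtain ⟨ζ, hζ⟩ := HasEnoughRootsOfUnity.exists_primitiveRoot F T.l
  refine ⟨⟨AddChar.zmodChar T.l hζ.pow_eq_one, (T.l : F)⁻¹, inv_mul_cancel₀ hl, ?_⟩⟩
  intro c hc
  have h := AddChar.sum_mulShift c (AddChar.zmodChar_primitive_of_primitive_root T.l hζ)
  rw [if_neg hc] at h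
  rw [← Nat.cast_zero, ← h]
  exact Finset.sum_congr rfl fun z _ => by rw [mul_comm]

theorem part2 (R : Type) [CommRing R] [IsLocalRing R] [IsAdicComplete (maximalIdeal R) R]
    (C : Chr T (ResidueField R)) : ∃ C' : Chr T R, C'.map (residue R) = C := by
  have hl : (T.l : ResidueField R) ≠ 0 := by
    intro h
    have h1 := C.il_mul
    rw [h, mul_zero] at h1
    exact zero_ne_one h1
  have hlu : IsUnit (T.l : R) := by
    by_contra hne
    apply hl
    have h1 : (T.l : R) ∈ maximalIdeal R := (mem_maximalIdeal _).2 hne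
    have h2 := (residue_eq_zero_iff (T.l : R)).2 h1
    rw [map_natCast] at h2
    exact h2
  have hψl : ∀ c : ZMod T.l, C.ψ c ^ T.l = 1 := by
    intro c
    rw [← AddChar.map_nsmul_eq_pow]
    have : T.l • c = 0 := by
      rw [nsmul_eq_mul, ZMod.natCast_self, zero_mul]
    rw [this, AddChar.map_zero_eq_one]
  obtain ⟨a₀, ha₀⟩ := residue_surjective (C.ψ 1)
  have hl0 : T.l ≠ 0 := T.prime.ne_zero
  obtain ⟨a, hroot, hclose⟩ := HenselianRing.is_henselian (I := maximalIdeal R)
    (Polynomial.X ^ T.l - 1 : Polynomial R) (Polynomial.monic_X_pow_sub_C (1 : R) hl0) a₀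
    (by
      rw [← residue_eq_zero_iff]
      simp only [Polynomial.eval_sub, Polynomial.eval_pow, Polynomial.eval_X, Polynomial.eval_one,
        map_sub, map_pow, map_one, ha₀, hψl, sub_self])
    (by
      have h1 : (Polynomial.derivative (Polynomial.X ^ T.l - 1 : Polynomial R)).eval a₀ =
          (T.l : R) * a₀ ^ (T.l - 1) := by
        simp [Polynomial.derivative_X_pow]
      rw [h1]
      apply IsUnit.map
      apply hlu.mul
      apply IsUnit.pow
      by_contra hne
      have h2 : a₀ ∈ maximalIdeal R := (mem_maximalIdeal _).2 hne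
      have h3 := (residue_eq_zero_iff a₀).2 h2
      rw [ha₀] at h3
      have h4 := hψl 1
      rw [h3, zero_pow hl0] at h4
      exact zero_ne_one h4)
  have haζ : a ^ T.l = 1 := by
    have h1 : (Polynomial.X ^ T.l - 1 : Polynomial R).eval a = 0 := hroot
    simp only [Polynomial.eval_sub, Polynomial.eval_pow, Polynomial.eval_X,
      Polynomial.eval_one] at h1
    exact sub_eq_zero.1 h1
  have hra : residue R a = C.ψ 1 := by
    have h1 := (residue_eq_zero_iff _).2 hclose
    rw [map_sub, sub_eq_zero, ha₀] at h1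
    exact h1
  set ψ : AddChar (ZMod T.l) R := AddChar.zmodChar T.l haζ with hψ
  have hψ1 : ψ 1 = a := by
    have := AddChar.zmodChar_apply' haζ 1
    rw [Nat.cast_one, pow_one] at this
    exact this
  have hmap : (residue R).toMonoidHom.compAddChar ψ = C.ψ := by
    apply addChar_ext
    show residue R (ψ 1) = C.ψ 1
    rw [hψ1, hra]
  have hres : ∀ c, residue R (ψ c) = C.ψ c := by
    intro c
    rw [← hmap]
    rfl
  obtain ⟨il, hil⟩ := hlu.exists_left_inv
  have hsum : ∀ c : ZMod T.l, c ≠ 0 → ∑ z, ψ (c * z) = 0 := by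
    intro c hc
    have h1 : ψ c * ∑ z, ψ (c * z) = ∑ z, ψ (c * z) := by
      rw [Finset.mul_sum]
      rw [← Equiv.sum_comp (Equiv.addLeft (1 : ZMod T.l)) (fun z => ψ (c * z))]
      refine Finset.sum_congr rfl fun z _ => ?_
      rw [← AddChar.map_add_eq_mul, Equiv.coe_addLeft]
      congr 1
      ring
    have h2 : (ψ c - 1) * ∑ z, ψ (c * z) = 0 := by
      rw [sub_mul, h1, one_mul, sub_self]
    have h3 : IsUnit (ψ c - 1) := by
      by_contra hne
      have h4 : ψ c - 1 ∈ maximalIdeal R := (mem_maximalIdeal _).2 hne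
      have h5 := (residue_eq_zero_iff _).2 h4
      rw [map_sub, map_one, hres, sub_eq_zero] at h5
      have h6 := C.sum_zero c hc
      have h7 : ∀ z : ZMod T.l, C.ψ (c * z) = 1 := by
        intro z
        have hz : c * z = z.val • c := by
          rw [nsmul_eq_mul, ZMod.natCast_zmod_val, mul_comm]
        rw [hz, AddChar.map_nsmul_eq_pow, h5, one_pow]
      rw [Finset.sum_congr rfl (fun z _ => h7 z), Finset.sum_const, Finset.card_univ, ZMod.card,
        nsmul_eq_mul, mul_one] at h6
      exact hl h6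
    exact (h3.mul_right_eq_zero).1 h2
  refine ⟨⟨ψ, il, hil, hsum⟩, ?_⟩
  apply chr_ext
  exact hres 1

theorem t : S_CHR := fun p _ T => ⟨fun F _ _ _ => part1 (T := T) F, fun R _ _ _ C => part2 R C⟩

end Pool.Agent.Helper1.EP.CHR
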