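import Pool.Agent.Helper47.EP.Goals

/-!
# Project EP, packet HB: the Heisenberg group algebra
-/

set_option autoImplicit false

namespace Pool.Agent.Helper1.EP.HB

open MonoidAlgebra IsLocalRing Pool.Agent.Helper17.PF Pool.Agent.Helper47.EP

variable {p : ℕ} [Fact p.Prime] {T : Dat p} {A : Type} [Fintype A] [DecidableEq A]
  {R : Type} [CommRing R]

theorem single_eq_smul {L : Type} (g : L) (a : R) :
    (single g a : MonoidAlgebra R L) = a • single g 1 := by
  rw [smul_single, smul_eq_mul, mul_one]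

theorem mul_zero_z (v : A → T.K) (z z' : ZMod T.l) :
    (⟨v, z⟩ : Hs T A) * ⟨0, z'⟩ = ⟨v, z + z'⟩ := by
  ext1
  · exact add_zero _
  · show z + z' + Om v 0 = z + z'
    rw [Om_zero_right, add_zero]

theorem zero_z_mul (v : A → T.K) (z z' : ZMod T.l) :
    (⟨0, z'⟩ : Hs T A) * ⟨v, z⟩ = ⟨v, z + z'⟩ := by
  ext1
  · exact zero_add _
  · show z' + z + Om 0 v = z + z'
    rw [Om_zero_left, add_zero, add_comm]

/-- the basic shift -/
theorem shift (C : Chr T R) (z0 : ZMod T.l) :
    single (⟨0, z0⟩ : Hs T A) (1 : R) * ee C A = C.ψ z0 • ee C A := by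
  unfold ee
  rw [mul_smul_comm, Finset.mul_sum, smul_comm]
  congr 1
  rw [Finset.smul_sum]
  rw [← Equiv.sum_comp (Equiv.addLeft z0) (fun z => C.ψ z0 • single (⟨0, z⟩ : Hs T A) (C.ψ (-z)))]
  refine Finset.sum_congr rfl fun z _ => ?_
  rw [single_mul_single, one_mul, mul_zero_z, Equiv.coe_addLeft, smul_single, smul_eq_mul,
    ← AddChar.map_add_eq_mul]
  congr 2
  ring

theorem ee_idem (C : Chr T R) : ee C A * ee C A = ee C A := by
  have h : ∀ z : ZMod T.l, single (⟨0, z⟩ : Hs T A) (C.ψ (-z)) * ee C A = ee C A := by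
    intro z
    rw [single_eq_smul, smul_mul_assoc, shift, smul_smul, ← AddChar.map_add_eq_mul,
      neg_add_cancel, AddChar.map_zero_eq_one, one_smul]
  calc ee C A * ee C A
      = (C.il • ∑ z : ZMod T.l, single (⟨0, z⟩ : Hs T A) (C.ψ (-z))) * ee C A := rfl
    _ = ee C A := by
      rw [smul_mul_assoc, Finset.sum_mul, Finset.sum_congr rfl (fun z _ => h z), Finset.sum_const,
        Finset.card_univ, ZMod.card, ← Nat.cast_smul_eq_nsmul R, smul_smul, C.il_mul, one_smul]

theorem ee_central (C : Chr T R) (x : MonoidAlgebra R (Hs T A)) : ee C A * x = x * ee C A := by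
  have h : ∀ z : ZMod T.l, Commute (single (⟨0, z⟩ : Hs T A) (C.ψ (-z))) x := by
    intro z
    apply single_commute
    · intro g
      show (⟨0, z⟩ : Hs T A) * g = g * ⟨0, z⟩
      obtain ⟨v, z'⟩ := g
      rw [mul_zero_z, zero_z_mul]
    · intro r
      exact Commute.all _ _
  unfold ee
  rw [smul_mul_assoc, mul_smul_comm, Finset.sum_mul, Finset.mul_sum]
  congr 1
  exact Finset.sum_congr rfl fun z _ => h z

theorem single_ee (C : Chr T R) (g : Hs T A) :
    single g (1 : R) * ee C A = C.ψ g.z • ev C g.v := by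
  have h : (⟨g.v, 0⟩ : Hs T A) * ⟨0, g.z⟩ = g := by
    rw [mul_zero_z, zero_add]
  have h2 : (single g (1 : R) : MonoidAlgebra R (Hs T A)) =
      single (⟨g.v, 0⟩ : Hs T A) (1 : R) * single (⟨0, g.z⟩ : Hs T A) (1 : R) := by
    rw [single_mul_single, h, one_mul]
  rw [h2, mul_assoc, shift, mul_smul_comm]
  rfl

theorem ev_mul (C : Chr T R) (v v' : A → T.K) :
    ev C v * ev C v' = C.ψ (Om v v') • ev C (v + v') := by
  have h : ev C v * ev C v' =
      single (⟨v, 0⟩ : Hs T A) (1 : R) * single (⟨v', 0⟩ : Hs T A) (1 : R) * ee C A := by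
    unfold ev
    calc single (⟨v, 0⟩ : Hs T A) (1 : R) * ee C A * (single (⟨v', 0⟩ : Hs T A) (1 : R) * ee C A)
        = single (⟨v, 0⟩ : Hs T A) (1 : R) * (ee C A * single (⟨v', 0⟩ : Hs T A) (1 : R)) *
          ee C A := by simp only [mul_assoc]
      _ = single (⟨v, 0⟩ : Hs T A) (1 : R) * (single (⟨v', 0⟩ : Hs T A) (1 : R) * ee C A) *
          ee C A := by rw [ee_central]
      _ = single (⟨v, 0⟩ : Hs T A) (1 : R) * single (⟨v', 0⟩ : Hs T A) (1 : R) *
          (ee C A * ee C A) := by simp only [mul_assoc]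
      _ = _ := by rw [ee_idem]
  rw [h, single_mul_single, one_mul, single_ee]
  congr 1
  show C.ψ (0 + 0 + Om v v') = _
  rw [add_zero, zero_add]

theorem ev_coeff (C : Chr T R) (v : A → T.K) (g : Hs T A) :
    (ev C v).coeff g = if g.v = v then C.il * C.ψ (-g.z) else 0 := by
  have h : ev C v = C.il • ∑ z : ZMod T.l, single (⟨v, z⟩ : Hs T A) (C.ψ (-z)) := by
    unfold ev ee
    rw [mul_smul_comm, Finset.mul_sum]
    congr 1
    refine Finset.sum_congr rfl fun z _ => ?_
    rw [single_mul_single, one_mul, mul_zero_z, zero_add]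
  rw [h, coeff_smul, Finsupp.smul_apply, coeff_sum, Finsupp.finset_sum_apply, smul_eq_mul]
  by_cases hg : g.v = v
  · rw [if_pos hg]
    congr 1
    rw [Finset.sum_eq_single g.z]
    · rw [coeff_single, Finsupp.single_apply, if_pos]
      subst hg
      rfl
    · intro z _ hz
      rw [coeff_single, Finsupp.single_apply, if_neg]
      intro h1
      apply hz
      rw [← h1]
    · intro h1
      exact absurd (Finset.mem_univ _) h1
  · rw [if_neg hg, Finset.sum_eq_zero, mul_zero]
    intro z _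
    rw [coeff_single, Finsupp.single_apply, if_neg]
    intro h1
    apply hg
    rw [← h1]

theorem ee_eq_ev (C : Chr T R) : ee C A = ev C (0 : A → T.K) := by
  unfold ev
  have h : (single (⟨0, 0⟩ : Hs T A) (1 : R) : MonoidAlgebra R (Hs T A)) = 1 := rfl
  rw [h, one_mul]

theorem eq_sum (x : MonoidAlgebra R (Hs T A)) :
    x = ∑ g : Hs T A, x.coeff g • single g (1 : R) := by
  ext h
  rw [coeff_sum, Finsupp.finset_sum_apply, Finset.sum_eq_single h]
  · rw [coeff_smul, Finsupp.smul_apply, coeff_single, Finsupp.single_eq_same, smul_eq_mul, mul_one]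
  · intro b _ hb
    rw [coeff_smul, Finsupp.smul_apply, coeff_single, Finsupp.single_apply, if_neg hb, smul_zero]
  · intro h1
    exact absurd (Finset.mem_univ _) h1

theorem ee_mul_eq (C : Chr T R) (x : MonoidAlgebra R (Hs T A)) :
    ee C A * x = ∑ v : A → T.K, (∑ z : ZMod T.l, x.coeff ⟨v, z⟩ * C.ψ z) • ev C v := by
  rw [ee_central]
  conv_lhs => rw [eq_sum x]
  rw [Finset.sum_mul]
  have h : ∀ g : Hs T A, x.coeff g • single g (1 : R) * ee C A =
      (x.coeff g * C.ψ g.z) • ev C g.v := by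
    intro g
    rw [smul_mul_assoc, single_ee, smul_smul]
  rw [Finset.sum_congr rfl (fun g _ => h g)]
  rw [← Equiv.sum_comp (Hs.equiv T A).symm
    (fun g : Hs T A => (x.coeff g * C.ψ g.z) • ev C g.v), Fintype.sum_prod_type]
  refine Finset.sum_congr rfl fun v _ => ?_
  rw [Finset.sum_smul]
  rfl

theorem expand (C : Chr T R) (x : MonoidAlgebra R (Hs T A)) (hx : ee C A * x = x) :
    x = ∑ v : A → T.K, ((T.l : R) * x.coeff ⟨v, 0⟩) • ev C v := by
  have h1 := ee_mul_eq C x
  rw [hx] at h1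
  have h2 : ∀ v : A → T.K, (T.l : R) * x.coeff ⟨v, 0⟩ =
      ∑ z : ZMod T.l, x.coeff ⟨v, z⟩ * C.ψ z := by
    intro v
    have h3 : x.coeff ⟨v, 0⟩ = (∑ v : A → T.K,
        (∑ z : ZMod T.l, x.coeff ⟨v, z⟩ * C.ψ z) • ev C v).coeff ⟨v, 0⟩ :=
      congrArg (fun y : MonoidAlgebra R (Hs T A) => y.coeff ⟨v, 0⟩) h1
    rw [coeff_sum, Finsupp.finset_sum_apply, Finset.sum_eq_single v] at h3
    · rw [coeff_smul, Finsupp.smul_apply, ev_coeff, if_pos rfl, neg_zero,
        AddChar.map_zero_eq_one, mul_one, smul_eq_mul] at h3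
      rw [h3, mul_comm, mul_assoc, C.il_mul, mul_one]
    · intro b _ hb
      rw [coeff_smul, Finsupp.smul_apply, ev_coeff, if_neg (fun h => hb h.symm), smul_zero]
    · intro h
      exact absurd (Finset.mem_univ _) h
  conv_lhs => rw [h1]
  refine Finset.sum_congr rfl fun v _ => ?_
  rw [h2]

theorem map_ev {S : Type} [CommRing S] (C : Chr T R) (f : R →+* S) (v : A → T.K) :
    MonoidAlgebra.mapRingHom (Hs T A) f (ev C v) = ev (C.map f) v := by
  ext g
  rw [coeff_mapRingHom, ev_coeff, ev_coeff]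
  split_ifs
  · rw [map_mul]
    rfl
  · rw [map_zero]

theorem t : S_HB := by
  intro p _ T A _ _ R _ C
  refine ⟨ee_idem C, ee_central C, single_ee C, ev_mul C, ev_coeff C, expand C, ?_⟩
  intro S _ f
  refine ⟨?_, map_ev C f⟩
  rw [ee_eq_ev, map_ev, ← ee_eq_ev]

end Pool.Agent.Helper1.EP.HB
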