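import Pool.Agent.Helper1.EP.HB

/-!
# Project EP, packet LFT: lifting of invariant idempotents
-/

set_option autoImplicit false

namespace Pool.Agent.Helper1.EP.LFT

open MonoidAlgebra IsLocalRing Pool.Agent.Helper17.PF Pool.Agent.Helper47.EP

section general

variable {R : Type} [CommRing R] {L : Type} [Group L]

/-- invariance under an automorphism of the group -/
def Inv1 (τ : L ≃* L) (x : MonoidAlgebra R L) : Prop := ∀ g, x.coeff (τ g) = x.coeff g

/-- support in a subgroup -/
def Sup1 (U : Subgroup L) (x : MonoidAlgebra R L) : Prop := ∀ g, g ∉ U → x.coeff g = 0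

theorem inv1_sub {τ : L ≃* L} {x y : MonoidAlgebra R L} (hx : Inv1 τ x) (hy : Inv1 τ y) :
    Inv1 τ (x - y) := by
  intro g
  rw [coeff_sub, Finsupp.sub_apply, Finsupp.sub_apply, hx, hy]

theorem inv1_mul {τ : L ≃* L} {x y : MonoidAlgebra R L} (hx : Inv1 τ x) (hy : Inv1 τ y) :
    Inv1 τ (x * y) := by
  have key : ∀ z : MonoidAlgebra R L, Inv1 τ z ↔ mapDomainRingHom R (τ : L →* L) z = z := by
    intro z
    have hc : ∀ g, (mapDomainRingHom R (τ : L →* L) z).coeff (τ g) = z.coeff g := by
      intro g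
      exact Finsupp.mapDomain_apply τ.injective _ g
    constructor
    · intro h
      ext g
      obtain ⟨g', rfl⟩ := τ.surjective g
      rw [hc, h]
    · intro h g
      conv_lhs => rw [← h]
      exact hc g
  rw [key] at hx hy ⊢
  rw [map_mul, hx, hy]

theorem sup1_sub {U : Subgroup L} {x y : MonoidAlgebra R L} (hx : Sup1 U x) (hy : Sup1 U y) :
    Sup1 U (x - y) := by
  intro g hg
  rw [coeff_sub, Finsupp.sub_apply, hx g hg, hy g hg, sub_zero]

theorem sup1_mul {U : Subgroup L} {x y : MonoidAlgebra R L} (hx : Sup1 U x) (hy : Sup1 U y) :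
    Sup1 U (x * y) := by
  classical
  intro g hg
  rw [coeff_mul]
  refine Finset.sum_eq_zero fun a ha => Finset.sum_eq_zero fun b hb => ?_
  dsimp only
  split_ifs with hab
  · exfalso
    apply hg
    rw [← hab]
    refine U.mul_mem ?_ ?_
    · by_contra h
      exact (Finsupp.mem_support_iff.1 ha) (hx a h)
    · by_contra h
      exact (Finsupp.mem_support_iff.1 hb) (hy b h)
  · rfl

/-- the subset which we use -/
structure Nice (S : Set (L ≃* L)) (U : Subgroup L) (x : MonoidAlgebra R L) : Prop where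
  inv : ∀ τ ∈ S, Inv1 τ x
  sup : Sup1 U x

theorem Nice.sub {S : Set (L ≃* L)} {U : Subgroup L} {x y : MonoidAlgebra R L} (hx : Nice S U x)
    (hy : Nice S U y) : Nice S U (x - y) :=
  ⟨fun τ h => inv1_sub (hx.inv τ h) (hy.inv τ h), sup1_sub hx.sup hy.sup⟩

theorem Nice.mul {S : Set (L ≃* L)} {U : Subgroup L} {x y : MonoidAlgebra R L} (hx : Nice S U x)
    (hy : Nice S U y) : Nice S U (x * y) :=
  ⟨fun τ h => inv1_mul (hx.inv τ h) (hy.inv τ h), sup1_mul hx.sup hy.sup⟩

theorem Nice.smul {S : Set (L ≃* L)} {U : Subgroup L} {x : MonoidAlgebra R L} (hx : Nice S U x)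
    (c : R) : Nice S U (c • x) := by
  refine ⟨fun τ h g => ?_, fun g hg => ?_⟩
  · rw [coeff_smul, Finsupp.smul_apply, Finsupp.smul_apply, hx.inv τ h g]
  · rw [coeff_smul, Finsupp.smul_apply, hx.sup g hg, smul_zero]

variable [IsLocalRing R] [IsAdicComplete (maximalIdeal R) R]

theorem haus0 {c : R} (h : ∀ n, c ∈ maximalIdeal R ^ n) : c = 0 := by
  refine IsHausdorff.haus (inferInstance : IsHausdorff (maximalIdeal R) R) _ fun n => ?_
  rw [SModEq.zero]
  simpa using h n

theorem Nice.limit {S : Set (L ≃* L)} {U : Subgroup L} {f : ℕ → MonoidAlgebra R L}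
    (hf : ∀ n, Nice S U (f n)) {x : MonoidAlgebra R L}
    (hx : ∀ n, f n - x ∈ CI L (maximalIdeal R ^ n)) : Nice S U x := by
  refine ⟨fun τ h g => ?_, fun g hg => ?_⟩
  · rw [← sub_eq_zero]
    apply haus0
    intro n
    have h1 := hx n (τ g)
    have h2 := hx n g
    rw [coeff_sub, Finsupp.sub_apply] at h1 h2
    have h3 := (hf n).inv τ h g
    rw [h3] at h1
    have h4 := (maximalIdeal R ^ n).sub_mem h2 h1
    have e : (f n).coeff g - x.coeff g - ((f n).coeff g - x.coeff (τ g)) =
      x.coeff (τ g) - x.coeff g := by ring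
    rw [e] at h4
    exact h4
  · apply haus0
    intro n
    have h1 := hx n g
    rw [coeff_sub, Finsupp.sub_apply, (hf n).sup g hg, zero_sub] at h1
    have h2 := (maximalIdeal R ^ n).neg_mem h1
    rwa [neg_neg] at h2

variable [Finite L]

theorem nice_lift {S : Set (L ≃* L)} {U : Subgroup L} {φ : MonoidAlgebra (ResidueField R) L}
    (hφ : Nice S U φ) : ∃ y : MonoidAlgebra R L, Nice S U y ∧ red R L y = φ := by
  classical
  choose s hs using (residue_surjective : Function.Surjective (residue R))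
  let s' : ResidueField R → R := fun c => if c = 0 then 0 else s c
  have hs' : ∀ c, residue R (s' c) = c := by
    intro c
    by_cases hc : c = 0
    · simp [s', hc]
    · simp only [s', if_neg hc]
      exact hs c
  refine ⟨ofCoeff (Finsupp.equivFunOnFinite.symm fun g => s' (φ.coeff g)), ⟨?_, ?_⟩, ?_⟩
  · intro τ h g
    show s' (φ.coeff (τ g)) = s' (φ.coeff g)
    rw [hφ.inv τ h g]
  · intro g hg
    show s' (φ.coeff g) = 0
    rw [hφ.sup g hg]
    simp [s']
  · ext g
    rw [coeff_red]
    exact hs' _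

theorem nice_idem {S : Set (L ≃* L)} {U : Subgroup L} {φ : MonoidAlgebra (ResidueField R) L}
    (hφ : Nice S U φ) (h1 : φ * φ = φ) :
    ∃ f : MonoidAlgebra R L, Nice S U f ∧ f * f = f ∧ red R L f = φ := by
  obtain ⟨y, hyN, hy⟩ := nice_lift hφ
  let N : MonoidAlgebra R L → MonoidAlgebra R L := fun f =>
    (3 : R) • (f * f) - (2 : R) • (f * f * f)
  let f : ℕ → MonoidAlgebra R L := fun n => N^[n] y
  have hsucc : ∀ n, f (n + 1) = (3 : R) • (f n * f n) - (2 : R) • (f n * f n * f n) := by
    intro n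
    change N^[n + 1] y = _
    rw [Function.iterate_succ_apply']
  have three : ∀ z : MonoidAlgebra R L, (3 : R) • z = 3 * z := by
    intro z
    rw [show (3 : R) = ((3 : ℕ) : R) by norm_num, Nat.cast_smul_eq_nsmul, nsmul_eq_mul]
    norm_num
  have two : ∀ z : MonoidAlgebra R L, (2 : R) • z = 2 * z := by
    intro z
    rw [show (2 : R) = ((2 : ℕ) : R) by norm_num, Nat.cast_smul_eq_nsmul, nsmul_eq_mul]
    norm_num
  have hP : ∀ n, Nice S U (f n) ∧ f n * f n - f n ∈ CI L (maximalIdeal R ^ (n + 1)) ∧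
      red R L (f n) = φ := by
    intro n
    induction n with
    | zero =>
      have h0 : f 0 = y := rfl
      refine ⟨hyN, ?_, hy⟩
      rw [h0, zero_add, pow_one, ← red_eq_zero, map_sub, map_mul, hy, h1, sub_self]
    | succ n ih =>
      obtain ⟨i1, i3, i4⟩ := ih
      refine ⟨?_, ?_, ?_⟩
      · rw [hsucc]
        exact ((i1.mul i1).smul 3).sub (((i1.mul i1).mul i1).smul 2)
      · rw [hsucc, three, two]
        have e1 : (3 * (f n * f n) - 2 * (f n * f n * f n)) *
            (3 * (f n * f n) - 2 * (f n * f n * f n)) -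
            (3 * (f n * f n) - 2 * (f n * f n * f n)) =
            (f n * f n - f n) * (f n * f n - f n) * (4 * (f n * f n) - 4 * f n - 3) := by
          noncomm_ring
        rw [e1]
        refine CI_mul_right _ ?_
        refine CI_mono ?_ (CI_mul i3 i3)
        rw [← pow_add]
        exact Ideal.pow_le_pow_right (by omega)
      · rw [hsucc, three, two]
        simp only [map_sub, map_mul, map_ofNat, i4, h1]
        noncomm_ring
  obtain ⟨x, hx⟩ := exists_limit f (by
    intro n
    rw [hsucc, three, two]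
    have e1 : 3 * (f n * f n) - 2 * (f n * f n * f n) - f n =
        (f n * f n - f n) * (1 - 2 * f n) := by noncomm_ring
    rw [e1]
    exact CI_mul_right _ (CI_mono (Ideal.pow_le_pow_right (by omega)) (hP n).2.1))
  have hx' : ∀ n, x - f n ∈ CI L (maximalIdeal R ^ n) := by
    intro n
    have := (CI L (maximalIdeal R ^ n)).neg_mem (hx n)
    rwa [neg_sub] at this
  refine ⟨x, Nice.limit (fun n => (hP n).1) hx, ?_, ?_⟩
  · rw [← sub_eq_zero]
    refine haus fun n => ?_
    have e1 : x * x - x = x * (x - f n) + (x - f n) * f n + (f n * f n - f n) - (x - f n) := by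
      noncomm_ring
    rw [e1]
    refine Submodule.sub_mem _ (Submodule.add_mem _ (Submodule.add_mem _ (CI_mul_left _ (hx' n))
      (CI_mul_right _ (hx' n))) (CI_mono (Ideal.pow_le_pow_right (by omega)) (hP n).2.1)) (hx' n)
  · have h5 := hx' 1
    rw [pow_one, ← red_eq_zero, map_sub, (hP 1).2.2, sub_eq_zero] at h5
    exact h5

end general

variable {p : ℕ} [Fact p.Prime] {T : Dat p} {A : Type} [Fintype A] [DecidableEq A]

/-- the subgroup of the elements with `g.v a = 0` outside `B` -/
def UB (T : Dat p) (B : Set A) : Subgroup (Hs T A) where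
  carrier := {g | ∀ a, a ∉ B → g.v a = 0}
  one_mem' := fun _ _ => rfl
  mul_mem' := by
    intro g h hg hh a ha
    show g.v a + h.v a = 0
    rw [hg a ha, hh a ha, add_zero]
  inv_mem' := by
    intro g hg a ha
    show -g.v a = 0
    rw [hg a ha, neg_zero]

theorem nice_iff {R : Type} [CommRing R] {J : Set (A → ZMod p)} {B : Set A}
    {x : MonoidAlgebra R (Hs T A)} :
    Nice {τ | ∃ j ∈ J, τ = ta j} (UB T B) x ↔ IJ J x ∧ SB B x := by
  constructor
  · intro h
    refine ⟨fun j hj g => h.inv (ta j) ⟨j, hj, rfl⟩ g, fun g hg a ha => ?_⟩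
    by_contra hne
    exact hg (h.sup g fun hU => hne (hU a ha))
  · rintro ⟨h1, h2⟩
    refine ⟨?_, ?_⟩
    · rintro τ ⟨j, hj, rfl⟩ g
      exact h1 j hj g
    · intro g hg
      by_contra hne
      exact hg fun a ha => h2 g hne a ha

theorem ee_nice {R : Type} [CommRing R] (C : Chr T R) (J : Set (A → ZMod p)) (B : Set A) :
    IJ J (ee C A) ∧ SB B (ee C A) := by
  rw [HB.ee_eq_ev]
  constructor
  · intro j _ g
    rw [HB.ev_coeff, HB.ev_coeff]
    have h : (ta j g).v = 0 ↔ g.v = 0 := by
      constructor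
      · intro h1
        have h2 : ta j g = ta j (⟨0, g.z⟩ : Hs T A) := by
          ext1
          · rw [h1]
            funext a
            exact (map_zero (T.t (j a))).symm
          · rfl
        rw [(ta j).injective h2]
      · intro h1
        funext a
        rw [ta_v, h1]
        exact map_zero (T.t (j a))
    simp only [h, ta_z]
  · intro g hg a _
    rw [HB.ev_coeff] at hg
    by_contra hne
    apply hg
    rw [if_neg]
    intro h1
    apply hne
    rw [h1]
    rfl

theorem t : S_LFT := by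
  intro p _ T A _ _ R _ _ _ C J B i hi
  have h1 : Nice {τ | ∃ j ∈ J, τ = ta j} (UB T B) i := nice_iff.2 ⟨hi.inv, hi.supp⟩
  obtain ⟨f, hfN, hff, hfr⟩ := nice_idem h1 hi.idem
  have h2 : Nice {τ | ∃ j ∈ J, τ = ta j} (UB T B) (ee C A) := nice_iff.2 (ee_nice C J B)
  have h3 := h2.mul hfN
  obtain ⟨h4, h5⟩ := nice_iff.1 h3
  refine ⟨ee C A * f, ⟨?_, ?_, h4, h5⟩, ?_⟩
  · calc ee C A * f * (ee C A * f) = ee C A * (f * ee C A) * f := by simp only [mul_assoc]
      _ = ee C A * (ee C A * f) * f := by rw [← HB.ee_central C f]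
      _ = (ee C A * ee C A) * (f * f) := by simp only [mul_assoc]
      _ = ee C A * f := by rw [HB.ee_idem, hff]
  · rw [← mul_assoc, HB.ee_idem]
  · rw [map_mul, hfr]
    have h6 : red R (Hs T A) (ee C A) = ee (C.map (residue R)) A := by
      unfold red
      rw [HB.ee_eq_ev, HB.map_ev, ← HB.ee_eq_ev]
    rw [h6, hi.ee]

end Pool.Agent.Helper1.EP.LFT
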