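import Pool.Agent.Helper47.EP.Goals

/-!
# Project EP, packet TRO: traces of idempotents of group algebras over a local domain
-/

set_option autoImplicit false
set_option linter.unusedSectionVars false

namespace Pool.Agent.Helper1.EP.TRO

open MonoidAlgebra IsLocalRing Pool.Agent.Helper17.PF Pool.Agent.Helper47.EP Module

section gen

variable {R : Type} [CommRing R] {L : Type} [Group L] [Finite L]

/-- the standard basis -/
noncomputable def bas (R : Type) [CommRing R] (L : Type) [Group L] [Finite L] :
    Basis L R (MonoidAlgebra R L) :=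
  Basis.ofRepr (coeffLinearEquiv R)

theorem bas_apply (g : L) : bas R L g = single g 1 := rfl

theorem bas_repr (x : MonoidAlgebra R L) (g : L) : (bas R L).repr x g = x.coeff g := rfl

instance : Module.Free R (MonoidAlgebra R L) := Module.Free.of_basis (bas R L)
instance : Module.Finite R (MonoidAlgebra R L) := Module.Finite.of_basis (bas R L)

theorem trace_mulLeft (x : MonoidAlgebra R L) :
    LinearMap.trace R (MonoidAlgebra R L) (LinearMap.mulLeft R x) = (Nat.card L : R) * x.coeff 1 := by
  classical
  haveI := Fintype.ofFinite L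
  rw [LinearMap.trace_eq_matrix_trace R (bas R L), Matrix.trace]
  have h : ∀ g : L, (LinearMap.toMatrix (bas R L) (bas R L) (LinearMap.mulLeft R x)).diag g =
      x.coeff 1 := by
    intro g
    rw [Matrix.diag_apply, LinearMap.toMatrix_apply, bas_apply, bas_repr, LinearMap.mulLeft_apply]
    have h1 := MonoidAlgebra.coeff_mul_single_apply x 1 (1 : L) g
    simpa using h1
  rw [Finset.sum_congr rfl (fun g _ => h g), Finset.sum_const, Finset.card_univ, nsmul_eq_mul,
    Nat.card_eq_fintype_card]

/-- the right ideal -/
noncomputable abbrev RI (x : MonoidAlgebra R L) : Submodule R (MonoidAlgebra R L) :=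
  LinearMap.range (LinearMap.mulLeft R x)

theorem mem_RI {e : MonoidAlgebra R L} (he : e * e = e) (x : MonoidAlgebra R L) :
    x ∈ RI e ↔ e * x = x := by
  constructor
  · rintro ⟨y, rfl⟩
    show e * (e * y) = e * y
    rw [← mul_assoc, he]
  · intro h
    exact ⟨x, h⟩

/-- the projection onto the right ideal -/
noncomputable def proj (e : MonoidAlgebra R L) : MonoidAlgebra R L →ₗ[R] RI e :=
  (LinearMap.mulLeft R e).rangeRestrict

theorem proj_comp {e : MonoidAlgebra R L} (he : e * e = e) :
    (proj e).comp (RI e).subtype = LinearMap.id := by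
  ext x : 1
  apply Subtype.ext
  exact (mem_RI he x).1 x.2

theorem comp_proj (e : MonoidAlgebra R L) :
    (RI e).subtype.comp (proj e) = LinearMap.mulLeft R e := by
  ext x : 1
  rfl

theorem isCompl {e : MonoidAlgebra R L} (he : e * e = e) : IsCompl (RI e) (RI (1 - e)) := by
  have he' : (1 - e) * (1 - e) = 1 - e := by
    rw [mul_sub, sub_mul, sub_mul, he]
    simp
  constructor
  · rw [Submodule.disjoint_def]
    intro x h1 h2
    rw [mem_RI he] at h1
    rw [mem_RI he', sub_mul, one_mul, h1, sub_self] at h2
    exact h2.symm
  · rw [codisjoint_iff, eq_top_iff]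
    intro x _
    rw [Submodule.mem_sup]
    exact ⟨e * x, ⟨x, rfl⟩, (1 - e) * x, ⟨x, rfl⟩, by rw [sub_mul, one_mul, add_sub_cancel]⟩

end gen

section loc

variable {R : Type} [CommRing R] [IsLocalRing R] {L : Type} [Group L] [Finite L]

theorem proj_free {e : MonoidAlgebra R L} (he : e * e = e) : Module.Free R (RI e) := by
  haveI : Module.Projective R (RI e) := Module.Projective.of_split _ _ (proj_comp he)
  haveI : Module.Finite R (RI e) :=
    Module.Finite.of_surjective (proj e) (LinearMap.surjective_rangeRestrict _)
  exact Module.free_of_flat_of_isLocalRing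

theorem proj_fin (e : MonoidAlgebra R L) : Module.Finite R (RI e) :=
  Module.Finite.of_surjective (proj e) (LinearMap.surjective_rangeRestrict _)

theorem trace_idem {e : MonoidAlgebra R L} (he : e * e = e) :
    (Nat.card L : R) * e.coeff 1 = (finrank R (RI e) : R) := by
  haveI := proj_free he
  haveI := proj_fin e
  rw [← trace_mulLeft, ← comp_proj, LinearMap.trace_comp_comm', proj_comp he,
    LinearMap.trace_id]

theorem red_surj (y : MonoidAlgebra (ResidueField R) L) : ∃ x, red R L x = y := by
  classical
  choose l hl using fun g : L => residue_surjective (y.coeff g)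
  refine ⟨ofCoeff (Finsupp.equivFunOnFinite.symm l), ?_⟩
  ext g
  unfold red
  rw [coeff_mapRingHom]
  exact hl g

theorem coeff_red' (x : MonoidAlgebra R L) (g : L) :
    (red R L x).coeff g = residue R (x.coeff g) := by
  unfold red
  rw [coeff_mapRingHom]

theorem red_le {e : MonoidAlgebra R L} (he : e * e = e) :
    dm (red R L e) ≤ finrank R (RI e) := by
  haveI := proj_free he
  haveI := proj_fin e
  set b := Module.finBasis R (RI e) with hb
  have hspan : LinearMap.range (LinearMap.mulLeft (ResidueField R) (red R L e)) ≤
      Submodule.span (ResidueField R)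
        (Set.range fun j => red R L (b j : MonoidAlgebra R L)) := by
    rintro _ ⟨y', rfl⟩
    obtain ⟨y, rfl⟩ := red_surj y'
    rw [LinearMap.mulLeft_apply, ← map_mul]
    have h1 : e * y = ∑ j, b.repr ⟨e * y, ⟨y, rfl⟩⟩ j • (b j : MonoidAlgebra R L) := by
      have h2 := b.sum_repr ⟨e * y, ⟨y, rfl⟩⟩
      have h3 := congrArg (fun z : RI e => (z : MonoidAlgebra R L)) h2
      simp only [Submodule.coe_sum, Submodule.coe_smul] at h3
      exact h3.symm
    rw [h1, map_sum]
    refine Submodule.sum_mem _ fun j _ => ?_
    have h4 : ∀ (c : R) (x : MonoidAlgebra R L), red R L (c • x) = residue R c • red R L x := by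
      intro c x
      ext g
      rw [coeff_red', coeff_smul, Finsupp.smul_apply, coeff_smul, Finsupp.smul_apply, coeff_red',
        smul_eq_mul, smul_eq_mul, map_mul]
    rw [h4]
    exact Submodule.smul_mem _ _ (Submodule.subset_span ⟨j, rfl⟩)
  unfold dm
  refine (Submodule.finrank_mono hspan).trans ?_
  have h5 := finrank_range_le_card (R := ResidueField R)
    (fun j : Fin (finrank R (RI e)) => red R L (b j : MonoidAlgebra R L))
  rw [Fintype.card_fin] at h5
  exact h5

end loc

theorem t : S_TRO := by
  intro R _ _ _ L _ _ i hi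
  rw [trace_idem hi]
  congr 1
  have hi' : (1 - i) * (1 - i) = 1 - i := by
    rw [mul_sub, sub_mul, sub_mul, hi]
    simp
  haveI := proj_free hi
  haveI := proj_fin i
  haveI := proj_free hi'
  haveI := proj_fin (1 - i)
  have h1 : finrank R (RI i) + finrank R (RI (1 - i)) = Nat.card L := by
    haveI := Fintype.ofFinite L
    rw [← Module.finrank_prod, (Submodule.prodEquivOfIsCompl _ _ (isCompl hi)).finrank_eq,
      Module.finrank_eq_card_basis (bas R L), Nat.card_eq_fintype_card]
  have hr : red R L i * red R L i = red R L i := by rw [← map_mul, hi]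
  have h2 : dm (red R L i) + dm (red R L (1 - i)) = Nat.card L := by
    haveI := Fintype.ofFinite L
    have h3 : red R L (1 - i) = 1 - red R L i := by rw [map_sub, map_one]
    rw [h3]
    unfold dm
    have h4 := (Submodule.prodEquivOfIsCompl _ _ (isCompl hr)).finrank_eq
    rw [Module.finrank_prod, Module.finrank_eq_card_basis (bas (ResidueField R) L)] at h4
    rw [Nat.card_eq_fintype_card]
    exact h4
  have h5 := red_le hi
  have h6 := red_le hi'
  omega

end Pool.Agent.Helper1.EP.TRO
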